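import Pool.Agent.P8H38.CN.Reg

/-!
Project CN, package FIN: the exceptional set.
-/

set_option autoImplicit false

namespace Pool.Agent.P8H38.CN

open Finset NumberField Pool.Agent.H38R2.CG Pool.Agent.P8H14.CN
open scoped Classical

theorem dsc_le (d : ℕ) : dsc d ≤ 4 * d := by
  unfold dsc
  split_ifs <;> omega

theorem dsc_inj : Function.Injective dsc := by
  intro a b h
  unfold dsc at h
  split_ifs at h <;> omega

/-- the estimate for one number -/
theorem good_of {δ : ℝ} (hδ : 0 < δ) (hδ2 : δ < 1 / 2) (hcnf : StmtCNF) (hreg : StmtREG)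
    {X d : ℕ} (hX : 2 ≤ Real.log X) (hd : 2 ≤ d) (hdX : d ≤ X) (hsq : Squarefree d)
    (hA : ¬ SmallUnit (dsc d) (Real.exp (Real.log X ^ (3 / 2 - δ / 2))))
    (hB : Lone (dsc d) ≤ Real.log (dsc d) ^ (δ / 4)) : GoodC δ d := by
  intro K _ _ h2 hx
  have hd1 : 1 < d := by omega
  obtain ⟨t, u, ht, hu, h1, hR⟩ := hreg K d hd1 hsq h2 hx
  have hc := hcnf K d hd1 hsq h2 hx
  set L := Real.log X with hL
  have hL0 : 0 < L := by linarith
  set B := L ^ (3 / 2 - δ / 2) with hBdef
  have hB0 : 0 < B := Real.rpow_pos_of_pos hL0 _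
  have hfund := isFund_dsc hd1 hsq
  have hD1 : 1 < dsc d := hfund.1
  have hDr : (1 : ℝ) < (dsc d : ℕ) := by exact_mod_cast hD1
  have htr : (0 : ℝ) < t := by exact_mod_cast ht
  have hur : (0 : ℝ) < u := by exact_mod_cast hu
  have hpos : 0 < ((t : ℝ) + (u : ℝ) * √((dsc d : ℕ) : ℝ)) / 2 := by positivity
  have hRB : B < Units.regulator K := by
    by_contra hcon
    push Not at hcon
    rw [hR] at hcon
    exact hA ⟨t, u, ht, hu, h1, (Real.log_le_iff_le_exp hpos).1 hcon⟩
  have hdr : (2 : ℝ) ≤ d := by exact_mod_cast hd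
  -- the square root of the discriminant
  have hs : √((dsc d : ℕ) : ℝ) ≤ 2 * √(d : ℝ) := by
    have e1 : ((dsc d : ℕ) : ℝ) ≤ 4 * d := by exact_mod_cast dsc_le d
    calc √((dsc d : ℕ) : ℝ) ≤ √(4 * (d : ℝ)) := Real.sqrt_le_sqrt e1
      _ = 2 * √(d : ℝ) := by
        rw [Real.sqrt_mul (by norm_num)]
        congr 1
        rw [show (4 : ℝ) = 2 ^ 2 by norm_num, Real.sqrt_sq (by norm_num)]
  -- the logarithm of the discriminant
  have hXpos : (0 : ℝ) < X := by
    have : (2 : ℝ) ≤ X := hdr.trans (by exact_mod_cast hdX)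
    linarith
  have hlogD : Real.log ((dsc d : ℕ) : ℝ) ≤ 2 * L := by
    have e1 : ((dsc d : ℕ) : ℝ) ≤ 4 * X := by
      have : dsc d ≤ 4 * X := (dsc_le d).trans (by omega)
      exact_mod_cast this
    have e2 : Real.log ((dsc d : ℕ) : ℝ) ≤ Real.log (4 * X) :=
      Real.log_le_log (by linarith) e1
    rw [Real.log_mul (by norm_num) hXpos.ne'] at e2
    have e3 : Real.log 4 ≤ 2 := by
      have h4 : Real.log 4 = 2 * Real.log 2 := by
        rw [show (4 : ℝ) = 2 ^ 2 by norm_num, Real.log_pow]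
        norm_num
      rw [h4]
      have := Real.log_two_lt_d9
      linarith
    linarith
  have hlogD0 : 0 ≤ Real.log ((dsc d : ℕ) : ℝ) := Real.log_nonneg hDr.le
  have hpow : Real.log ((dsc d : ℕ) : ℝ) ^ (δ / 4) ≤ L ^ (δ / 2) := by
    calc Real.log ((dsc d : ℕ) : ℝ) ^ (δ / 4) ≤ (L ^ (2 : ℝ)) ^ (δ / 4) := by
          apply Real.rpow_le_rpow hlogD0 _ (by positivity)
          refine hlogD.trans ?_
          rw [Real.rpow_two]
          nlinarith
      _ = L ^ (δ / 2) := by
          rw [← Real.rpow_mul hL0.le]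
          congr 1
          ring
  have hh0 : (0 : ℝ) ≤ classNumber K := Nat.cast_nonneg _
  have hsd : 0 ≤ √(d : ℝ) := Real.sqrt_nonneg _
  have key : B * (classNumber K : ℝ) ≤ √(d : ℝ) * L ^ (δ / 2) := by
    have e1 : 2 * B * (classNumber K : ℝ) ≤ 2 * Units.regulator K * (classNumber K : ℝ) := by
      apply mul_le_mul_of_nonneg_right _ hh0
      linarith
    have e2 : √((dsc d : ℕ) : ℝ) * Lone (dsc d) ≤ (2 * √(d : ℝ)) * L ^ (δ / 2) := by
      calc √((dsc d : ℕ) : ℝ) * Lone (dsc d) ≤ √((dsc d : ℕ) : ℝ) * L ^ (δ / 2) :=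
            mul_le_mul_of_nonneg_left (hB.trans hpow) (Real.sqrt_nonneg _)
        _ ≤ _ := mul_le_mul_of_nonneg_right hs (Real.rpow_nonneg hL0.le _)
    rw [hc] at e1
    linarith
  have hsplit : B = L ^ (3 / 2 - δ) * L ^ (δ / 2) := by
    rw [hBdef, ← Real.rpow_add hL0]
    congr 1
    ring
  have hp2 : 0 < L ^ (δ / 2) := Real.rpow_pos_of_pos hL0 _
  have key2 : L ^ (3 / 2 - δ) * (classNumber K : ℝ) ≤ √(d : ℝ) := by
    rw [hsplit] at key
    have : (L ^ (3 / 2 - δ) * (classNumber K : ℝ)) * L ^ (δ / 2) ≤ √(d : ℝ) * L ^ (δ / 2) := by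
      linarith
    exact le_of_mul_le_mul_right this hp2
  have hlogd : 0 < Real.log (d : ℝ) := Real.log_pos (by linarith)
  have hle : Real.log (d : ℝ) ^ (3 / 2 - δ) ≤ L ^ (3 / 2 - δ) := by
    apply Real.rpow_le_rpow hlogd.le _ (by linarith)
    exact Real.log_le_log (by linarith) (by exact_mod_cast hdX)
  rw [le_div_iff₀ (Real.rpow_pos_of_pos hlogd _)]
  calc (classNumber K : ℝ) * Real.log (d : ℝ) ^ (3 / 2 - δ) ≤
      (classNumber K : ℝ) * L ^ (3 / 2 - δ) := mul_le_mul_of_nonneg_left hle hh0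
    _ ≤ √(d : ℝ) := by linarith

theorem fin : StmtRGB → StmtCNF → StmtREG → S_LBD → S_FIN := by
  intro hrgb hcnf hreg hlbd δ hδ hδ2
  obtain ⟨M₁, hM₁⟩ := hrgb (δ / 2) (by linarith) (by linarith)
  obtain ⟨M₂, hM₂⟩ := hlbd (δ / 4) (by linarith) (by linarith)
  -- large X
  have hlarge : ∃ X₀ : ℕ, ∀ X : ℕ, X₀ ≤ X → 2 ≤ Real.log X ∧ 4 ≤ Real.log X ^ (δ / 16) := by
    have t1 : Filter.Tendsto (fun X : ℕ => Real.log (X : ℝ)) Filter.atTop Filter.atTop :=
      Real.tendsto_log_atTop.comp tendsto_natCast_atTop_atTop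
    have t2 : Filter.Tendsto (fun X : ℕ => Real.log (X : ℝ) ^ (δ / 16)) Filter.atTop Filter.atTop :=
      (tendsto_rpow_atTop (by positivity)).comp t1
    have e1 := (Filter.tendsto_atTop.1 t1 2).and (Filter.tendsto_atTop.1 t2 4)
    obtain ⟨X₀, h⟩ := Filter.eventually_atTop.1 e1
    exact ⟨X₀, h⟩
  obtain ⟨X₀, hX₀⟩ := hlarge
  refine ⟨|M₁| + 4 * |M₂| + Real.exp (Real.log X₀ ^ (δ / 16)), fun X hX => ?_⟩
  have hXr : (2 : ℝ) ≤ X := by exact_mod_cast hX
  have hXp : (0 : ℝ) < X := by linarith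
  set L := Real.log X with hL
  have hL0 : 0 < L := Real.log_pos (by linarith)
  set E := Real.exp (-(L ^ (δ / 16))) with hE
  have hEp : 0 < E := Real.exp_pos _
  have hXE : 0 ≤ X * E := by positivity
  have hM1n : 0 ≤ |M₁| * (X * E) := by positivity
  have hM2n : 0 ≤ |M₂| * (X * E) := by positivity
  rcases lt_or_ge X X₀ with hlt | hge
  · -- small X
    have h1 : (((Icc 2 X).filter (fun d => Squarefree d ∧ ¬ GoodC δ d)).card : ℝ) ≤ X := by
      have := card_filter_le (Icc 2 X) (fun d => Squarefree d ∧ ¬ GoodC δ d)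
      rw [Nat.card_Icc] at this
      have h2 : ((Icc 2 X).filter (fun d => Squarefree d ∧ ¬ GoodC δ d)).card ≤ X := by omega
      exact_mod_cast h2
    refine h1.trans ?_
    have h3 : L ^ (δ / 16) ≤ Real.log X₀ ^ (δ / 16) := by
      apply Real.rpow_le_rpow hL0.le _ (by positivity)
      exact Real.log_le_log hXp (by exact_mod_cast hlt.le)
    have h4 : 1 ≤ Real.exp (Real.log X₀ ^ (δ / 16)) * E := by
      rw [hE, ← Real.exp_add]
      apply Real.one_le_exp
      linarith
    have h5 : (X : ℝ) ≤ Real.exp (Real.log X₀ ^ (δ / 16)) * (X * E) := by nlinarith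
    calc (X : ℝ) ≤ Real.exp (Real.log X₀ ^ (δ / 16)) * (X * E) := h5
      _ ≤ (|M₁| + 4 * |M₂| + Real.exp (Real.log X₀ ^ (δ / 16))) * (X * E) := by nlinarith
      _ = _ := by ring
  · -- large X
    obtain ⟨hL2, hL4⟩ := hX₀ X hge
    have hA := hM₁ X hX
    have hB := hM₂ (4 * X) (by omega)
    set A := (Finset.Icc 2 X).filter (fun d => Squarefree d ∧
      SmallUnit (dsc d) (Real.exp (Real.log X ^ (3 / 2 - δ / 2)))) with hAdef
    set S := (Icc 2 (4 * X)).filter (fun D => IsFund D ∧ Real.log D ^ (δ / 4) < Lone D) with hSdef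
    have hsub : (Icc 2 X).filter (fun d => Squarefree d ∧ ¬ GoodC δ d) ⊆
        A ∪ ((Icc 2 X).filter (fun d => dsc d ∈ S)) := by
      intro d hd
      rw [mem_filter, mem_Icc] at hd
      obtain ⟨⟨hd2, hdX⟩, hsq, hbad⟩ := hd
      rw [mem_union]
      by_contra hcon
      rw [not_or] at hcon
      obtain ⟨hc1, hc2⟩ := hcon
      apply hbad
      refine good_of hδ hδ2 hcnf hreg hL2 hd2 hdX hsq ?_ ?_
      · intro hsm
        apply hc1
        rw [hAdef, mem_filter, mem_Icc]
        exact ⟨⟨hd2, hdX⟩, hsq, hsm⟩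
      · by_contra hlone
        push Not at hlone
        apply hc2
        rw [mem_filter, mem_Icc, hSdef, mem_filter, mem_Icc]
        have hf := isFund_dsc (by omega : 1 < d) hsq
        exact ⟨⟨hd2, hdX⟩, ⟨hf.1, (dsc_le d).trans (by omega)⟩, hf, hlone⟩
    have hcardB : ((Icc 2 X).filter (fun d => dsc d ∈ S)).card ≤ S.card := by
      apply card_le_card_of_injOn dsc
      · intro d hd
        rw [mem_coe, mem_filter] at hd
        exact hd.2
      · exact dsc_inj.injOn
    have hcard := (card_le_card hsub).trans (card_union_le _ _)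
    have hcard' : (((Icc 2 X).filter (fun d => Squarefree d ∧ ¬ GoodC δ d)).card : ℝ) ≤
        (A.card : ℝ) + S.card := by
      exact_mod_cast hcard.trans (Nat.add_le_add_left hcardB _)
    refine hcard'.trans ?_
    -- the bound for A
    have hA' : (A.card : ℝ) ≤ |M₁| * (X * E) := by
      refine hA.trans ?_
      have e0 : Real.exp (-(Real.log X ^ (δ / 2 / 8))) = E := by
        rw [hE, hL]
        congr 3
        ring
      rw [e0, mul_assoc]
      exact mul_le_mul_of_nonneg_right (le_abs_self _) hXE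
    -- the bound for S
    have hS' : (S.card : ℝ) ≤ 4 * |M₂| * (X * E) := by
      refine hB.trans ?_
      have e1 : Real.exp (-(Real.log ((4 * X : ℕ) : ℝ) ^ (δ / 4 / 2) / 4)) ≤ E := by
        rw [hE]
        apply Real.exp_le_exp.2
        apply neg_le_neg
        have e2 : L ^ (δ / 8) ≤ Real.log ((4 * X : ℕ) : ℝ) ^ (δ / 4 / 2) := by
          rw [show δ / 4 / 2 = δ / 8 by ring]
          apply Real.rpow_le_rpow hL0.le _ (by positivity)
          apply Real.log_le_log hXp
          push_cast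
          linarith
        have e3 : L ^ (δ / 8) = L ^ (δ / 16) * L ^ (δ / 16) := by
          rw [← Real.rpow_add hL0]
          congr 1
          ring
        have e4 : 0 ≤ L ^ (δ / 16) := Real.rpow_nonneg hL0.le _
        rw [e3] at e2
        have e5 : 4 * L ^ (δ / 16) ≤ L ^ (δ / 16) * L ^ (δ / 16) :=
          mul_le_mul_of_nonneg_right hL4 e4
        linarith
      have e6 : M₂ * ((4 * X : ℕ) : ℝ) * Real.exp (-(Real.log ((4 * X : ℕ) : ℝ) ^ (δ / 4 / 2) / 4)) ≤
          |M₂| * ((4 * X : ℕ) : ℝ) * E := by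
        apply mul_le_mul _ e1 (Real.exp_pos _).le (by positivity)
        exact mul_le_mul_of_nonneg_right (le_abs_self _) (by positivity)
      refine e6.trans (le_of_eq ?_)
      push_cast
      ring
    have hx : 0 ≤ Real.exp (Real.log X₀ ^ (δ / 16)) * (X * E) := by positivity
    calc (A.card : ℝ) + S.card ≤ |M₁| * (X * E) + 4 * |M₂| * (X * E) := add_le_add hA' hS'
      _ ≤ (|M₁| + 4 * |M₂| + Real.exp (Real.log X₀ ^ (δ / 16))) * (X * E) := by nlinarith
      _ = _ := by ring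

end Pool.Agent.P8H38.CN
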