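import Pool.Agent.H38R2.CG.N0

/-!
Project CN, package REG: the regulator of a real quadratic field is the logarithm of a unit
`(t + u √D) / 2` with `t, u > 0`.
-/

set_option autoImplicit false
set_option linter.unusedSectionVars false

namespace Pool.Agent.P8H38.CN

open NumberField Pool.Agent.H38R2.CG

section
variable {K : Type} [Field K] [NumberField K]

/-- the place of a real embedding -/
noncomputable def pl (σ : K →+* ℝ) : InfinitePlace K := InfinitePlace.mk (Complex.ofRealHom.comp σ)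

theorem pl_apply (σ : K →+* ℝ) (x : K) : pl σ x = |σ x| := by
  unfold pl
  rw [InfinitePlace.apply]
  show ‖((σ x : ℝ) : ℂ)‖ = |σ x|
  rw [Complex.norm_real, Real.norm_eq_abs]

theorem pl_isReal (σ : K →+* ℝ) : (pl σ).IsReal := by
  refine ⟨Complex.ofRealHom.comp σ, ?_, rfl⟩
  rw [ComplexEmbedding.isReal_iff]
  ext x
  show (starRingEnd ℂ) ((σ x : ℝ) : ℂ) = ((σ x : ℝ) : ℂ)
  exact Complex.conj_ofReal _

theorem pl_inj {σ τ : K →+* ℝ} (h : pl σ = pl τ) : σ = τ := by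
  unfold pl at h
  rw [InfinitePlace.mk_eq_iff] at h
  rcases h with h | h
  · ext x
    have h1 := RingHom.congr_fun h x
    have h2 : ((σ x : ℝ) : ℂ) = ((τ x : ℝ) : ℂ) := h1
    exact_mod_cast h2
  · ext x
    have h1 := RingHom.congr_fun h x
    have h2 : (starRingEnd ℂ) ((σ x : ℝ) : ℂ) = ((τ x : ℝ) : ℂ) := h1
    rw [Complex.conj_ofReal] at h2
    exact_mod_cast h2

theorem card_places {σ τ : K →+* ℝ} (hne : σ ≠ τ) (h2 : Module.finrank ℚ K = 2) :
    Fintype.card (InfinitePlace K) = 2 := by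
  classical
  have h1 := InfinitePlace.card_add_two_mul_card_eq_rank K
  have h3 : InfinitePlace.nrRealPlaces K + InfinitePlace.nrComplexPlaces K =
      Fintype.card (InfinitePlace K) := by
    rw [InfinitePlace.card_eq_nrRealPlaces_add_nrComplexPlaces]
  have h4 : 1 < Fintype.card (InfinitePlace K) :=
    Fintype.one_lt_card_iff.2 ⟨pl σ, pl τ, fun h => hne (pl_inj h)⟩
  rw [h2] at h1
  omega

theorem rank_one {σ τ : K →+* ℝ} (hne : σ ≠ τ) (h2 : Module.finrank ℚ K = 2) :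
    Units.rank K = 1 := by
  unfold Units.rank
  rw [card_places hne h2]

theorem reg_eq {σ τ : K →+* ℝ} (hne : σ ≠ τ) (h2 : Module.finrank ℚ K = 2) :
    ∃ ε : (𝓞 K)ˣ, Units.regulator K = abs (Real.log (abs (σ (ε : K)))) := by
  classical
  have hw : pl σ ≠ pl τ := fun h => hne (pl_inj h)
  have hc : Fintype.card {w : InfinitePlace K // w ≠ pl τ} = Fintype.card (Fin (Units.rank K)) := by
    rw [Fintype.card_subtype_compl, Fintype.card_subtype_eq, card_places hne h2, Fintype.card_fin,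
      rank_one hne h2]
  let e : {w : InfinitePlace K // w ≠ pl τ} ≃ Fin (Units.rank K) := Fintype.equivOfCardEq hc
  have hsub : Subsingleton {w : InfinitePlace K // w ≠ pl τ} := by
    rw [← Fintype.card_le_one_iff_subsingleton, hc, Fintype.card_fin, rank_one hne h2]
  let _ : Unique {w : InfinitePlace K // w ≠ pl τ} :=
    { default := ⟨pl σ, hw⟩, uniq := fun a => Subsingleton.elim _ _ }
  refine ⟨Units.fundSystem K (e ⟨pl σ, hw⟩), ?_⟩
  rw [Units.regulator_eq_det K (pl τ) e, Matrix.det_unique]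
  show |(((pl σ).mult : ℕ) : ℝ) * Real.log (pl σ (Units.fundSystem K (e ⟨pl σ, hw⟩) : K))| = _
  rw [pl_apply, (pl_isReal σ).mult_eq_one]
  norm_num

theorem reg_eq' {σ τ : K →+* ℝ} (hne : σ ≠ τ) (h2 : Module.finrank ℚ K = 2) :
    ∃ η : (𝓞 K)ˣ, 1 < σ (η : K) ∧ Real.log (σ (η : K)) = Units.regulator K := by
  obtain ⟨ε, hε⟩ := reg_eq hne h2
  have hpos := Units.regulator_pos K
  have h0 : σ (ε : K) ≠ 0 := by
    rw [Ne, map_eq_zero]
    exact Units.coe_ne_zero ε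
  -- a unit with the positive value |σ ε|
  have h1 : ∃ ε' : (𝓞 K)ˣ, σ (ε' : K) = |σ (ε : K)| := by
    rcases lt_or_gt_of_ne h0 with h | h
    · refine ⟨-ε, ?_⟩
      rw [abs_of_neg h, ← map_neg]
      congr 1
    · exact ⟨ε, (abs_of_pos h).symm⟩
  obtain ⟨ε', hε'⟩ := h1
  have h3 : 0 < |σ (ε : K)| := abs_pos.2 h0
  have hinv : ((ε'⁻¹ : (𝓞 K)ˣ) : K) = (ε' : K)⁻¹ := by
    have h := NumberField.Units.coe_zpow ε' (-1)
    rw [zpow_neg_one, zpow_neg_one] at h
    exact h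
  rcases le_total 0 (Real.log |σ (ε : K)|) with h | h
  · rw [abs_of_nonneg h] at hε
    refine ⟨ε', ?_, by rw [hε', hε]⟩
    rw [hε']
    rw [hε] at hpos
    exact (Real.log_pos_iff h3.le).1 hpos
  · rw [abs_of_nonpos h] at hε
    refine ⟨ε'⁻¹, ?_, ?_⟩
    · have h4 : σ ((ε'⁻¹ : (𝓞 K)ˣ) : K) = |σ (ε : K)|⁻¹ := by
        rw [hinv, map_inv₀, hε']
      rw [h4]
      rw [hε] at hpos
      have h5 : Real.log |σ (ε : K)|⁻¹ > 0 := by
        rw [Real.log_inv]; exact hpos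
      exact (Real.log_pos_iff (by positivity)).1 h5
    · rw [hinv, map_inv₀, hε', Real.log_inv, hε]

theorem reg_unit {D : ℕ} (hD : 0 < D) (e : Emb K D) (h2 : Module.finrank ℚ K = 2) :
    ∃ t u : ℕ, 0 < t ∧ 0 < u ∧
      ((t : ℤ) ^ 2 - (D : ℤ) * (u : ℤ) ^ 2 = 4 ∨ (t : ℤ) ^ 2 - (D : ℤ) * (u : ℤ) ^ 2 = -4) ∧
      Real.log (((t : ℝ) + (u : ℝ) * √(D : ℝ)) / 2) = Units.regulator K := by
  obtain ⟨η, hη1, hη2⟩ := reg_eq' e.ne h2
  obtain ⟨u, v, -, hσ, hτ⟩ := e.int1 (η : 𝓞 K)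
  have hDr : (0 : ℝ) < D := by exact_mod_cast hD
  have hs : √(D : ℝ) ^ 2 = D := Real.sq_sqrt hDr.le
  have hsp : 0 < √(D : ℝ) := Real.sqrt_pos.2 hDr
  have hn := e.nrm (η : K)
  have hnorm : (Algebra.norm ℚ (η : K) = 1) ∨ (Algebra.norm ℚ (η : K) = -1) := by
    have h3 := (NumberField.isUnit_iff_norm (K := K) (x := (η : 𝓞 K))).1 η.isUnit
    have h4 : |Algebra.norm ℚ (η : K)| = 1 := by
      rw [RingOfIntegers.coe_norm] at h3
      exact h3
    exact (abs_eq zero_le_one).1 h4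
  -- the norm of the unit
  have hmul : e.σ (η : K) * e.τ (η : K) = 1 ∨ e.σ (η : K) * e.τ (η : K) = -1 := by
    rw [← hn]
    rcases hnorm with h | h
    · left; rw [h]; norm_num
    · right; rw [h]; norm_num
  have hσ' : e.σ (η : K) = ((u : ℝ) + v * √(D : ℝ)) / 2 := hσ
  have hτ' : e.τ (η : K) = ((u : ℝ) - v * √(D : ℝ)) / 2 := hτ
  have hprod : e.σ (η : K) * e.τ (η : K) = ((u : ℝ) ^ 2 - D * (v : ℝ) ^ 2) / 4 := by
    rw [hσ', hτ']
    have : ((u : ℝ) + v * √(D : ℝ)) / 2 * (((u : ℝ) - v * √(D : ℝ)) / 2) =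
        ((u : ℝ) ^ 2 - √(D : ℝ) ^ 2 * (v : ℝ) ^ 2) / 4 := by ring
    rw [this, hs]
  have hτlt : |e.τ (η : K)| < 1 := by
    have h3 : |e.σ (η : K)| * |e.τ (η : K)| = 1 := by
      rw [← abs_mul]
      rcases hmul with h | h <;> rw [h] <;> norm_num
    have h4 : |e.σ (η : K)| = e.σ (η : K) := abs_of_pos (by linarith)
    rw [h4] at h3
    by_contra hcon
    push Not at hcon
    nlinarith
  obtain ⟨h5, h6⟩ := abs_lt.1 hτlt
  have hu : 0 < u := by
    have : (0 : ℝ) < u := by linarith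
    exact_mod_cast this
  have hv : 0 < v := by
    have h7 : 0 < (v : ℝ) * √(D : ℝ) := by linarith
    have : (0 : ℝ) < v := by
      by_contra hcon
      push Not at hcon
      nlinarith
    exact_mod_cast this
  obtain ⟨t, rfl⟩ := Int.eq_ofNat_of_zero_le hu.le
  obtain ⟨r, rfl⟩ := Int.eq_ofNat_of_zero_le hv.le
  refine ⟨t, r, by exact_mod_cast hu, by exact_mod_cast hv, ?_, ?_⟩
  · rw [hprod] at hmul
    rcases hmul with h | h
    · left
      have : (((t : ℤ) : ℝ)) ^ 2 - D * (((r : ℤ) : ℝ)) ^ 2 = 4 := by linarith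
      exact_mod_cast this
    · right
      have : (((t : ℤ) : ℝ)) ^ 2 - D * (((r : ℤ) : ℝ)) ^ 2 = -4 := by linarith
      exact_mod_cast this
  · rw [← hη2, hσ']
    push_cast
    rfl

end

end Pool.Agent.P8H38.CN
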