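import Pool.Agent.P8H14.CN.Stm
import Pool.Agent.P8H38.CN.RegCore

/-!
Project CN, package REG.
-/

set_option autoImplicit false

namespace Pool.Agent.P8H38.CN

open NumberField Pool.Agent.H38R2.CG Pool.Agent.P8H14.CN

theorem isFund_dsc {d : ℕ} (hd : 1 < d) (hsq : Squarefree d) : IsFund (dsc d) := by
  unfold dsc
  split_ifs with h
  · exact ⟨hd, Or.inl ⟨h, hsq⟩⟩
  · refine ⟨by omega, Or.inr ⟨d, rfl, ?_, hsq⟩⟩
    have h4 : d % 4 ≠ 0 := by
      intro h0
      have h1 : 2 * 2 ∣ d := by omega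
      have h2 := hsq 2 h1
      rw [Nat.isUnit_iff] at h2
      omega
    omega

theorem discr_dsc (h0d : P_N0d) (K : Type) [Field K] [NumberField K] (d : ℕ) (hd : 1 < d)
    (hsq : Squarefree d) (h2 : Module.finrank ℚ K = 2) (hx : ∃ x : K, x ^ 2 = (d : K)) :
    NumberField.discr K = (dsc d : ℤ) := by
  rw [h0d K d hd hsq h2 hx]
  unfold dsc
  split_ifs <;> push_cast <;> rfl

theorem reg : P_N0 → P_N0d → StmtREG := by
  intro h0 h0d K _ _ d hd hsq h2 hx
  obtain ⟨e⟩ := h0 K (dsc d) (isFund_dsc hd hsq) h2 (discr_dsc h0d K d hd hsq h2 hx)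
  have hpos : 0 < dsc d := (by omega : 0 < 1).trans (isFund_dsc hd hsq).1
  obtain ⟨t, u, ht, hu, h1, h3⟩ := reg_unit hpos e h2
  exact ⟨t, u, ht, hu, h1, h3.symm⟩

end Pool.Agent.P8H38.CN
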